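import Pool.Agent.Lib.MP_6b2d39_agRef.FinalR
import Pool.Agent.Lib.MP_6b2d39_agHal.Ten

/-!
The final window theorem, for all `μ ≥ 0`, together with the reflection inequality.
-/

set_option autoImplicit false

namespace Pool.Agent.Lib.MP_6b2d39_agRef

open Pool.Agent.Lib.MP_6b2d39_ag Pool.Agent.Lib.MP_6b2d39_agWin Pool.Agent.Lib.MP_6b2d39_agCr
  Pool.Agent.Lib.MP_6b2d39_agHal Pool.Agent.Lib.MP_6b2d39_agNw

theorem hh_allR {h : ℕ} (hh : 3 ≤ h) (d : ℕ) (m : Fin h → ℕ) :
    General (fun P => IsSpecial d m P ↔ IsMinusOneSpecial d m P) ∨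
      ∃ (e : ℕ) (n : Fin h → ℕ), Relation.ReflTransGen CremonaStep (d, m) (e, n) ∧
        (∀ i, n i ≤ m i) ∧ Reduced e n ∧ General (fun P => IsSpecial e n P) ∧
        (∀ μ : ℕ,
          (((Finset.univ.filter (fun i => μ < n i)).card ≤ 8 ∨
            ((Finset.univ.filter (fun i => μ < n i)).card = 9 ∧
              ∑ i ∈ Finset.univ.filter (fun i => μ < n i), n i + μ ≤ 3 * e)) →
            -(3 * (μ : ℤ) ^ 2) < vd e n ∧ vd e n < 6 * (μ : ℤ) ^ 2) ∧
          ((Finset.univ.filter (fun i => μ < n i)).card ≤ 9 →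
            -(15 * (μ : ℤ) ^ 2) < vd e n ∧ vd e n < 7 * (μ : ℤ) ^ 2)) ∧
        ∀ σ : Equiv.Perm (Fin h), Antitone (fun i => n (σ i)) →
          (∃ i j : Fin h, (i : ℕ) = 0 ∧ (j : ℕ) = 8 ∧ e = n (σ i) + 2 * n (σ j)) ∨
          3 * e < ∑ i : Fin h, (if (i : ℕ) < 9 ∨ Odd (i : ℕ) then n (σ i) else 0) := by
  rcases hh_main hh d m with h1 | ⟨e, n, hr, hred, hbad⟩
  · exact Or.inl h1
  · refine Or.inr ⟨e, n, hr, fun i => le_of_reach hr i, hred, general_special_of_bad hbad, ?_, ?_⟩
    · intro μ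
      rcases Nat.eq_zero_or_pos μ with hz | hμ
      · subst hz
        have h9 : ¬ (Finset.univ.filter (fun i => 0 < n i)).card ≤ 9 := fun hc =>
          hbad (nonspecial_nine hh hred hc)
        refine ⟨fun hc => absurd ?_ h9, fun hc => absurd hc h9⟩
        rcases hc with hc | ⟨hc, -⟩ <;> omega
      refine ⟨fun hc => ?_, fun hc => ?_⟩
      · by_contra hcon
        apply hbad
        apply window_nine hh hred hμ hc
        by_contra hne
        push Not at hne
        exact hcon hne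
      · by_contra hcon
        apply hbad
        apply window_ten hh hred hμ hc
        by_contra hne
        push Not at hne
        exact hcon hne
    · intro σ hσ
      exact reflect_bad hh hred hbad σ hσ

end Pool.Agent.Lib.MP_6b2d39_agRef
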