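import Pool.Agent.Lib.MP_6b2d39_agRef.FootSum
import Pool.Agent.Lib.MP_6b2d39_agNw.Assemble

/-!
Exact criterion: the light points are put on the rows of the heavy part.

PROOF of `exact_rows`. `a b = rr b - ∑ foot` for `b < H`, `u = ∑_{b < H} a b`; `vd d m = u` by `Heavy.sum_rr` and `sum_foot`.
`exists_assign` gives the row `c k` of the simple point `k : Fin u`. `cert_foot` for the index type `Fin h ⊕ Fin u`, multiplicities
`Sum.elim m 1`, starting rows `Sum.elim B c`, `J = {i | ∀ l ∈ S, i ≠ Sum.inl l}`, `D = rr` (`foot_one`); `empP_of_cert_up` with `c = 0`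
(the row `b` of `dgm r H` has `r b` cells), `Heavy.kill`, `exists_configS` as in `exists_config_of` (`Nw/Assemble.lean`),
`general_nonspecial_of_le`.
PROOF of `rr_nine`: as `rr_lin9`, `hlong_eq9`: the correction term is `0` because `m i1 + m i2 + b ≤ d` (a third point of `S`).
-/

open Polynomial

set_option autoImplicit false

namespace Pool.Agent.Lib.MP_6b2d39_agRef

open Pool.Agent.Lib.MP_6b2d39_ag Pool.Agent.Lib.MP_6b2d39_agWin Pool.Agent.Lib.MP_6b2d39_agArr
  Pool.Agent.Lib.MP_6b2d39_agNw Pool.Agent.Lib.MP_6b2d39_agCr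

private theorem er_row (r : ℕ → ℕ) (H b : ℕ) : (rowOf (dgm r H) b).card ≤ r b := by
  have h : rowOf (dgm r H) b ⊆ Finset.range (r b) := by
    intro a ha
    unfold rowOf at ha
    rw [Finset.mem_image] at ha
    obtain ⟨p, hp, rfl⟩ := ha
    rw [Finset.mem_filter, mem_dgm] at hp
    obtain ⟨⟨_, h2⟩, h3⟩ := hp
    rw [h3] at h2
    exact Finset.mem_range.2 h2
  have := Finset.card_le_card h
  rwa [Finset.card_range] at this

private theorem er_split {h : ℕ} (S : Finset (Fin h)) (f : Fin h → ℕ) :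
    ∑ l, f l = ∑ l ∈ S, f l + ∑ l ∈ Finset.univ.filter (fun l => l ∉ S), f l := by
  rw [← Finset.sum_filter_add_sum_filter_not Finset.univ (fun l => l ∈ S) f]
  congr 1
  apply Finset.sum_congr _ (fun _ _ => rfl)
  ext l
  simp

private theorem er_vd {h d : ℕ} {m : Fin h → ℕ} {S : Finset (Fin h)} {R : ℕ}
    (hR : R + ∑ i ∈ S, (m i + 1).choose 2 = (d + 2).choose 2) :
    vd d m = (R : ℤ) -
      ((∑ l ∈ Finset.univ.filter (fun l => l ∉ S), (m l + 1).choose 2 : ℕ) : ℤ) := by
  have h2 := er_split S (fun l => (m l + 1).choose 2)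
  unfold vd
  have h3 : (∑ i, ((m i + 1).choose 2 : ℤ)) = ((∑ l, (m l + 1).choose 2 : ℕ) : ℤ) := by
    push_cast
    rfl
  rw [h3, h2, ← hR]
  push_cast
  ring

private theorem er_all {h u : ℕ} (S : Finset (Fin h)) :
    (Finset.univ.filter (fun i : Fin h ⊕ Fin u => ∀ l ∈ S, i ≠ Sum.inl l)) =
      ((Finset.univ.filter (fun l : Fin h => l ∉ S)).map
        Function.Embedding.inl) ∪ (Finset.univ : Finset (Fin u)).map Function.Embedding.inr := by
  ext i
  rw [Finset.mem_union, Finset.mem_map, Finset.mem_map, Finset.mem_filter]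
  constructor
  · rintro ⟨-, hi⟩
    rcases i with l | l
    · left
      refine ⟨l, ?_, rfl⟩
      rw [Finset.mem_filter]
      exact ⟨Finset.mem_univ _, fun hl => hi l hl rfl⟩
    · right
      exact ⟨l, Finset.mem_univ _, rfl⟩
  · rintro (⟨l, hl, rfl⟩ | ⟨l, -, rfl⟩)
    · refine ⟨Finset.mem_univ _, fun l' hl' heq => ?_⟩
      rw [Finset.mem_filter] at hl
      apply hl.2
      rw [Sum.inl_injective heq]
      exact hl'
    · refine ⟨Finset.mem_univ _, fun l' _ heq => ?_⟩
      simp at heq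

private theorem er_disj {h u : ℕ} (S : Finset (Fin h)) :
    Disjoint ((Finset.univ.filter (fun l : Fin h => l ∉ S)).map
      (Function.Embedding.inl : Fin h ↪ Fin h ⊕ Fin u))
      ((Finset.univ : Finset (Fin u)).map Function.Embedding.inr) := by
  rw [Finset.disjoint_left]
  intro i hi hi'
  rw [Finset.mem_map] at hi hi'
  obtain ⟨a, -, rfl⟩ := hi
  obtain ⟨b, -, hb⟩ := hi'
  simp at hb

theorem exact_rows {h d : ℕ} {m : Fin h → ℕ} {S : Finset (Fin h)} {i1 i2 : Fin h}
    (hH : Heavy d S m i1 i2) {H : ℕ} (hHH : ∀ b, b < H ↔ 3 * b + (m i1 - b) ≤ d)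
    (B : Fin h → ℕ) (hB : ∀ i ∉ S, B i ≤ m i) (hm : ∀ i ∉ S, m i < H)
    (hrow : ∀ b < H, ∑ i ∈ Finset.univ.filter (fun i => i ∉ S), foot (m i) (B i) b ≤
      rr d S m i1 i2 b) :
    General (fun P => (Module.finrank ℂ (curves d m P) : ℤ) = max (vd d m) 0) := by
  classical
  have hsum := hH.sum_rr hHH
  have hvd := er_vd hsum
  obtain ⟨L, hL⟩ : ∃ L, L = Finset.univ.filter (fun i : Fin h => i ∉ S) := ⟨_, rfl⟩
  obtain ⟨a, ha⟩ : ∃ a : ℕ → ℕ, a = fun b => rr d S m i1 i2 b - ∑ i ∈ L, foot (m i) (B i) b :=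
    ⟨_, rfl⟩
  obtain ⟨u, hu⟩ : ∃ u, u = ∑ b ∈ Finset.range H, a b := ⟨_, rfl⟩
  have hab : ∀ b < H, a b + ∑ i ∈ L, foot (m i) (B i) b = rr d S m i1 i2 b := by
    intro b hb
    have h1 := hrow b hb
    rw [← hL] at h1
    rw [ha]
    exact Nat.sub_add_cancel h1
  have hmL : ∀ i ∈ L, i ∉ S := by
    intro i hi
    rw [hL, Finset.mem_filter] at hi
    exact hi.2
  have hfoot : ∑ b ∈ Finset.range H, ∑ i ∈ L, foot (m i) (B i) b =
      ∑ i ∈ L, (m i + 1).choose 2 := by
    rw [Finset.sum_comm]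
    exact Finset.sum_congr rfl fun i hi => sum_foot (hB i (hmL i hi)) (hm i (hmL i hi))
  have htot : u + ∑ i ∈ L, (m i + 1).choose 2 = ∑ b ∈ Finset.range H, rr d S m i1 i2 b := by
    rw [hu, ← hfoot, ← Finset.sum_add_distrib]
    exact Finset.sum_congr rfl fun b hb => hab b (Finset.mem_range.1 hb)
  have hvdu : vd d m = (u : ℤ) := by
    rw [hvd, ← htot, ← hL]
    push_cast
    ring
  obtain ⟨c, hc1, hc2⟩ := exists_assign hu.symm
  have hcert : Cert (Sum.elim m (fun _ => 1) : Fin h ⊕ Fin u → ℕ)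
      (Finset.univ.filter (fun i : Fin h ⊕ Fin u => ∀ l ∈ S, i ≠ Sum.inl l)) H
      (fun b => (rr d S m i1 i2 b : ℤ)) := by
    apply cert_foot (B := Sum.elim B c)
    · intro j hj
      rw [er_all, Finset.mem_union, Finset.mem_map, Finset.mem_map] at hj
      rcases hj with ⟨l, hl, rfl⟩ | ⟨l, -, rfl⟩
      · rw [← hL] at hl
        exact lt_of_le_of_lt (hB l (hmL l hl)) (hm l (hmL l hl))
      · exact hc1 l
    · intro b hb
      rw [er_all, Finset.sum_union (er_disj S), Finset.sum_map, Finset.sum_map, ← hL]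
      have h1 : ∑ x : Fin u, ((foot ((Sum.elim m (fun _ => 1) : Fin h ⊕ Fin u → ℕ)
          (Function.Embedding.inr x)) ((Sum.elim B c) (Function.Embedding.inr x)) b : ℕ) : ℤ) =
          (a b : ℤ) := by
        have h2 : ∀ x : Fin u, ((foot ((Sum.elim m (fun _ => 1) : Fin h ⊕ Fin u → ℕ)
            (Function.Embedding.inr x)) ((Sum.elim B c) (Function.Embedding.inr x)) b : ℕ) : ℤ) =
            if c x = b then 1 else 0 := by
          intro x
          simp only [Function.Embedding.inr_apply, Sum.elim_inr, foot_one]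
          by_cases hx : c x = b
          · rw [if_pos hx, if_pos hx.symm]
            rfl
          · rw [if_neg hx, if_neg (fun hx' => hx hx'.symm)]
            rfl
        rw [Finset.sum_congr rfl fun x _ => h2 x, Finset.sum_boole, hc2 b hb]
      rw [h1]
      have h3 := hab b hb
      have h4 : ((a b + ∑ i ∈ L, foot (m i) (B i) b : ℕ) : ℤ) = (rr d S m i1 i2 b : ℤ) := by
        exact_mod_cast h3
      rw [← h4]
      push_cast
      simp only [Function.Embedding.inl_apply, Sum.elim_inl]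
      linarith
  have hE : EmpP (dgm (rr d S m i1 i2) H) (Sum.elim m (fun _ => 1) : Fin h ⊕ Fin u → ℕ)
      (Finset.univ.filter (fun i : Fin h ⊕ Fin u => ∀ l ∈ S, i ≠ Sum.inl l)) := by
    refine empP_of_cert_up (c := 0) hcert (fun b _ => ?_) fun p hp => ?_
    · rw [zero_add]
      exact_mod_cast er_row _ H b
    · rw [mem_dgm] at hp
      omega
  have ht : Set.InjOn (fun i : Fin h => ((i : ℕ) : ℂ)) (S : Set (Fin h)) := by
    intro i _ j _ hij
    exact Fin.ext (Nat.cast_injective (R := ℂ) hij)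
  obtain ⟨x, y, hxy⟩ := hH.kill ht hHH hE
  obtain ⟨P₀, hP₀⟩ := exists_configS S _ x y hxy
  apply general_nonspecial_of_le P₀
  apply le_max_of_le_left
  rw [hvdu]
  exact_mod_cast hP₀

theorem rr_nine {ι : Type} [DecidableEq ι] {d : ℕ} {S : Finset ι} {m : ι → ℕ} {i1 i2 : ι}
    (h : Heavy d S m i1 i2) (hc : S.card = 9) {b : ℕ} (ht : ∀ i ∈ S, b ≤ m i)
    (hb : 3 * b + (m i1 - b) < d) : rr d S m i1 i2 b + ∑ i ∈ S, m i = 3 * d := by
  have h10 : ∑ i ∈ S, m i = ∑ i ∈ S, ((m i - b) + b) :=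
    Finset.sum_congr rfl fun i hi => by
      have := ht i hi
      omega
  rw [Finset.sum_add_distrib, Finset.sum_const, hc, smul_eq_mul] at h10
  have h3 : 0 < ((S.erase i1).erase i2).card := by
    rw [Finset.card_erase_of_mem (Finset.mem_erase.2 ⟨h.ne.symm, h.h2⟩),
      Finset.card_erase_of_mem h.h1]
    omega
  obtain ⟨l, hl⟩ := Finset.card_pos.1 h3
  rw [Finset.mem_erase, Finset.mem_erase] at hl
  have h4 := h.red i1 h.h1 i2 h.h2 l hl.2.2 h.ne (Ne.symm hl.2.1) (Ne.symm hl.1)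
  have h5 := ht l hl.2.2
  have h6 := ht i1 h.h1
  have h7 := ht i2 h.h2
  have hpos := h.pos hb
  unfold rr
  rw [if_neg (by omega), if_neg (by omega)]
  omega

end Pool.Agent.Lib.MP_6b2d39_agRef
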