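import Pool.Agent.Lib.MP_6b2d39_agRef.Reflect
import Pool.Agent.Lib.MP_6b2d39_agWin.Strong

/-!
The reflection theorem for `hh_main`.
-/

open Polynomial

set_option autoImplicit false

namespace Pool.Agent.Lib.MP_6b2d39_agRef

open Pool.Agent.Lib.MP_6b2d39_ag Pool.Agent.Lib.MP_6b2d39_agWin Pool.Agent.Lib.MP_6b2d39_agNw
  Pool.Agent.Lib.MP_6b2d39_agCr

/-- a reduced system for which nonspeciality fails -/
theorem reflect_bad {h : ℕ} (hh : 3 ≤ h) {e : ℕ} {n : Fin h → ℕ} (hred : Reduced e n)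
    (hbad : ¬ General (fun P => (Module.finrank ℂ (curves e n P) : ℤ) = max (vd e n) 0))
    (σ : Equiv.Perm (Fin h)) (hσ : Antitone fun i => n (σ i)) :
    (∃ i j : Fin h, (i : ℕ) = 0 ∧ (j : ℕ) = 8 ∧ e = n (σ i) + 2 * n (σ j)) ∨
      3 * e < ∑ i : Fin h, (if (i : ℕ) < 9 ∨ Odd (i : ℕ) then n (σ i) else 0) := by
  have h9 : 9 < h := by
    by_contra hcon
    apply hbad
    apply nonspecial_nine hh hred
    calc (Finset.univ.filter (fun i => 0 < n i)).card ≤ (Finset.univ : Finset (Fin h)).card :=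
          Finset.card_filter_le _ _
      _ = h := by rw [Finset.card_univ, Fintype.card_fin]
      _ ≤ 9 := by omega
  rcases Nat.lt_or_ge (3 * e)
    (∑ i : Fin h, (if (i : ℕ) < 9 ∨ Odd (i : ℕ) then n (σ i) else 0)) with hs | hs
  · exact Or.inr hs
  left
  refine ⟨⟨0, by omega⟩, ⟨8, by omega⟩, rfl, rfl, ?_⟩
  by_contra hne
  apply hbad
  refine reduced_reflect hred σ hσ ⟨0, by omega⟩ ⟨8, by omega⟩ rfl rfl ?_ hs
  have h1 := hred ⟨![σ ⟨0, by omega⟩, σ ⟨1, by omega⟩, σ ⟨2, by omega⟩], by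
    intro a b hab
    fin_cases a <;> fin_cases b <;> simp_all [Fin.ext_iff]⟩
  rw [Fin.sum_univ_three] at h1
  have h2 : n (σ ⟨8, by omega⟩) ≤ n (σ ⟨1, by omega⟩) := hσ (Fin.mk_le_mk.2 (by omega))
  have h3 : n (σ ⟨8, by omega⟩) ≤ n (σ ⟨2, by omega⟩) := hσ (Fin.mk_le_mk.2 (by omega))
  change n (σ ⟨0, by omega⟩) + n (σ ⟨1, by omega⟩) + n (σ ⟨2, by omega⟩) ≤ e at h1
  omega

end Pool.Agent.Lib.MP_6b2d39_agRef
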