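import Pool.Agent.Lib.MP_6b2d39_agArr.Defs

/-!
Certificates in which the order of the rows for a point is `B, B - 1, …, 0, B + 1, B + 2, …`.

PROOF of `cert_foot`. `e b = (H + 3) ^ b`, `p j = - (H + 3) ^ (B j)`: `c ↦ E ^ c - E ^ B * c` decreases for `c ≤ B`, increases for `c ≥ B`, and
its value at `B + 1` is larger than the value `1` at `0` (`E = H + 3 ≥ B + 3`). So `rk H e (p j) b = B j - b` for `b ≤ B j` and `b` for
`b > B j`.
-/

set_option autoImplicit false

namespace Pool.Agent.Lib.MP_6b2d39_agRef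

open Pool.Agent.Lib.MP_6b2d39_agArr

/-- cells of the row `b` used by a point of multiplicity `m` -/
def foot (m B b : ℕ) : ℕ := if b ≤ B then m - (B - b) else m - b

/-- the weight of the row `c` -/
private def wt (E B : ℕ) (c : ℕ) : ℤ := (E : ℤ) ^ c + (-((E : ℤ) ^ B)) * c

private theorem wt_step_down {E B c : ℕ} (hE : 3 ≤ E) (hc : c < B) : wt E B (c + 1) < wt E B c := by
  unfold wt
  have h1 : (1 : ℤ) ≤ (E : ℤ) ^ c := one_le_pow₀ (by exact_mod_cast (by omega : 1 ≤ E))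
  have h2 : (E : ℤ) ^ (c + 1) ≤ (E : ℤ) ^ B :=
    pow_le_pow_right₀ (by exact_mod_cast (by omega : 1 ≤ E)) hc
  push_cast
  linarith

private theorem wt_step_up {E B c : ℕ} (hE : 3 ≤ E) (hc : B ≤ c) : wt E B c < wt E B (c + 1) := by
  unfold wt
  have h1 : (1 : ℤ) ≤ (E : ℤ) ^ c := one_le_pow₀ (by exact_mod_cast (by omega : 1 ≤ E))
  have h2 : (E : ℤ) ^ B ≤ (E : ℤ) ^ c :=
    pow_le_pow_right₀ (by exact_mod_cast (by omega : 1 ≤ E)) hc
  have h3 : (3 : ℤ) ≤ E := by exact_mod_cast hE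
  have h4 : (3 : ℤ) * (E : ℤ) ^ c ≤ (E : ℤ) ^ (c + 1) := by
    rw [pow_succ]
    nlinarith
  push_cast
  linarith

private theorem wt_down {E B : ℕ} (hE : 3 ≤ E) : ∀ k c : ℕ, c + k + 1 ≤ B →
    wt E B (c + k + 1) < wt E B c := by
  intro k
  induction k with
  | zero =>
    intro c hc
    exact wt_step_down hE (by omega)
  | succ k ih =>
    intro c hc
    exact (wt_step_down hE (c := c + k + 1) (by omega)).trans (ih c (by omega))

private theorem wt_up {E B : ℕ} (hE : 3 ≤ E) : ∀ k c : ℕ, B ≤ c →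
    wt E B c < wt E B (c + k + 1) := by
  intro k
  induction k with
  | zero =>
    intro c hc
    exact wt_step_up hE hc
  | succ k ih =>
    intro c hc
    exact (ih c hc).trans (wt_step_up hE (c := c + k + 1) (by omega))

private theorem wt_down' {E B a b : ℕ} (hE : 3 ≤ E) (hab : a < b) (hb : b ≤ B) :
    wt E B b < wt E B a := by
  obtain ⟨k, rfl⟩ : ∃ k, b = a + k + 1 := ⟨b - a - 1, by omega⟩
  exact wt_down hE k a hb

private theorem wt_up' {E B a b : ℕ} (hE : 3 ≤ E) (ha : B ≤ a) (hab : a < b) :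
    wt E B a < wt E B b := by
  obtain ⟨k, rfl⟩ : ∃ k, b = a + k + 1 := ⟨b - a - 1, by omega⟩
  exact wt_up hE k a ha

private theorem wt_zero {E B b : ℕ} (hE : B + 3 ≤ E) (hb : B < b) : wt E B 0 < wt E B b := by
  have h1 : wt E B 0 < wt E B (B + 1) := by
    unfold wt
    have h1 : (1 : ℤ) ≤ (E : ℤ) ^ B := one_le_pow₀ (by exact_mod_cast (by omega : 1 ≤ E))
    have h3 : (B : ℤ) + 3 ≤ E := by exact_mod_cast hE
    have h4 : ((B : ℤ) + 3) * (E : ℤ) ^ B ≤ (E : ℤ) ^ (B + 1) := by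
      rw [pow_succ, mul_comm]
      exact mul_le_mul_of_nonneg_left h3 (by linarith)
    push_cast
    rw [pow_zero]
    nlinarith
  rcases Nat.lt_or_ge (B + 1) b with h2 | h2
  · exact h1.trans (wt_up' (by omega) (Nat.le_succ B) h2)
  · have : b = B + 1 := by omega
    rw [this]
    exact h1

private theorem wt_zero' {E B a b : ℕ} (hE : B + 3 ≤ E) (ha : a ≤ B) (hb : B < b) :
    wt E B a < wt E B b := by
  rcases Nat.eq_zero_or_pos a with h0 | h0
  · subst h0
    exact wt_zero hE hb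
  · exact (wt_down' (by omega) h0 ha).trans (wt_zero hE hb)

private theorem rk_le {H B b : ℕ} (hB : B < H) (hb : b < H) :
    rk H (fun c => ((H + 3 : ℕ) : ℤ) ^ c) (-(((H + 3 : ℕ) : ℤ) ^ B)) b ≤
      if b ≤ B then B - b else b := by
  have hcomp : ∀ c, (((H + 3 : ℕ) : ℤ) ^ c + (-(((H + 3 : ℕ) : ℤ) ^ B)) * c) = wt (H + 3) B c :=
    fun c => rfl
  unfold rk
  split_ifs with h1
  · have h2 : ((Finset.range H).filter fun c => c ≠ b ∧
        ((H + 3 : ℕ) : ℤ) ^ c + (-(((H + 3 : ℕ) : ℤ) ^ B)) * c ≤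
        ((H + 3 : ℕ) : ℤ) ^ b + (-(((H + 3 : ℕ) : ℤ) ^ B)) * b) ⊆ Finset.Ioc b B := by
      intro c hc
      rw [Finset.mem_filter, Finset.mem_range] at hc
      obtain ⟨-, h3, h4⟩ := hc
      rw [hcomp, hcomp] at h4
      rw [Finset.mem_Ioc]
      constructor
      · by_contra h5
        have h6 : c < b := by omega
        exact absurd h4 (not_le.2 (wt_down' (by omega) h6 h1))
      · by_contra h5
        exact absurd h4 (not_le.2 (wt_zero' (by omega) h1 (by omega)))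
    have h3 := Finset.card_le_card h2
    rwa [Nat.card_Ioc] at h3
  · have h2 : ((Finset.range H).filter fun c => c ≠ b ∧
        ((H + 3 : ℕ) : ℤ) ^ c + (-(((H + 3 : ℕ) : ℤ) ^ B)) * c ≤
        ((H + 3 : ℕ) : ℤ) ^ b + (-(((H + 3 : ℕ) : ℤ) ^ B)) * b) ⊆ Finset.range b := by
      intro c hc
      rw [Finset.mem_filter, Finset.mem_range] at hc
      obtain ⟨-, h3, h4⟩ := hc
      rw [hcomp, hcomp] at h4
      rw [Finset.mem_range]
      by_contra h5
      have h6 : b < c := by omega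
      exact absurd h4 (not_le.2 (wt_up' (by omega) (by omega) h6))
    have h3 := Finset.card_le_card h2
    rwa [Finset.card_range] at h3

theorem cert_foot {ι : Type} {m B : ι → ℕ} {J : Finset ι} {H : ℕ} {D : ℕ → ℤ}
    (hB : ∀ j ∈ J, B j < H) (h : ∀ b < H, D b ≤ ∑ j ∈ J, (foot (m j) (B j) b : ℤ)) :
    Cert m J H D := by
  refine ⟨fun c => ((H + 3 : ℕ) : ℤ) ^ c, fun j => -(((H + 3 : ℕ) : ℤ) ^ (B j)), fun b hb => ?_⟩
  refine (h b hb).trans (Finset.sum_le_sum fun j hj => ?_)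
  have h1 := rk_le (hB j hj) hb
  have h2 : foot (m j) (B j) b ≤
      m j - rk H (fun c => ((H + 3 : ℕ) : ℤ) ^ c) (-(((H + 3 : ℕ) : ℤ) ^ (B j))) b := by
    unfold foot
    split_ifs at h1 ⊢ <;> omega
  exact_mod_cast h2

end Pool.Agent.Lib.MP_6b2d39_agRef
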