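import Pool.Agent.Lib.MP_6b2d39_agRef.Foot

/-!
Sums of footprints.

PROOFS. `sum_foot`: rows `0, …, B` carry `m - B, …, m`, rows `B + 1, …, m` carry `m - B - 1, …, 0`. `foot_one`: direct.
`exists_assign`: induction on `H`, or `Fin u` is equivalent to `Σ b : Fin H, Fin (a b)`.
`pair_load`: `i` odd and `i + 1`: `g i - b` and `b` (if `b ≤ g (i + 1)`) or `0`; induction in steps of two.
`pair_zero`: `g i ≤ g 9 < b`.
-/

set_option autoImplicit false

namespace Pool.Agent.Lib.MP_6b2d39_agRef

private theorem fs_tri (m : ℕ) : ∑ b ∈ Finset.range (m + 1), (m - b) = (m + 1).choose 2 := by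
  induction m with
  | zero => rfl
  | succ m ih =>
    have h1 : (m + 1 + 1).choose 2 = (m + 1) + (m + 1).choose 2 := by
      rw [Nat.choose_succ_succ' (m + 1) 1, Nat.choose_one_right]
    rw [Finset.sum_range_succ', h1]
    simp only [Nat.add_sub_add_right, ih]
    omega

theorem sum_foot {m B H : ℕ} (hB : B ≤ m) (hm : m < H) :
    ∑ b ∈ Finset.range H, foot m B b = (m + 1).choose 2 := by
  have h1 : ∑ b ∈ Finset.range (B + 1), foot m B b = ∑ b ∈ Finset.range (B + 1), (m - b) := by
    rw [← Finset.sum_range_reflect (fun b => m - b) (B + 1)]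
    refine Finset.sum_congr rfl fun b hb => ?_
    have := Finset.mem_range.1 hb
    unfold foot
    rw [if_pos (by omega)]
    have e : B + 1 - 1 - b = B - b := by omega
    rw [e]
  have h2 : ∑ b ∈ Finset.Ico (B + 1) H, foot m B b = ∑ b ∈ Finset.Ico (B + 1) H, (m - b) := by
    refine Finset.sum_congr rfl fun b hb => ?_
    have := Finset.mem_Ico.1 hb
    unfold foot
    rw [if_neg (by omega)]
  have h3 : ∑ b ∈ Finset.Ico (m + 1) H, (m - b) = 0 := by
    refine Finset.sum_eq_zero fun b hb => ?_
    have := Finset.mem_Ico.1 hb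
    omega
  rw [← Finset.sum_range_add_sum_Ico (fun b => foot m B b) (by omega : B + 1 ≤ H), h1, h2,
    Finset.sum_range_add_sum_Ico (fun b => m - b) (by omega : B + 1 ≤ H),
    ← Finset.sum_range_add_sum_Ico (fun b => m - b) (by omega : m + 1 ≤ H), h3, fs_tri, add_zero]

theorem foot_one (B b : ℕ) : foot 1 B b = if b = B then 1 else 0 := by
  unfold foot
  split_ifs <;> omega

theorem exists_assign {H u : ℕ} {a : ℕ → ℕ} (h : ∑ b ∈ Finset.range H, a b = u) :
    ∃ c : Fin u → ℕ, (∀ k, c k < H) ∧
      ∀ b < H, (Finset.univ.filter (fun k => c k = b)).card = a b := by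
  induction H generalizing u with
  | zero =>
    rw [Finset.sum_range_zero] at h
    subst h
    exact ⟨fun _ => 0, fun k => k.elim0, fun b hb => absurd hb (Nat.not_lt_zero _)⟩
  | succ H ih =>
    rw [Finset.sum_range_succ] at h
    obtain ⟨c, hc1, hc2⟩ := ih rfl
    subst h
    refine ⟨Fin.append c (fun _ => H), fun k => ?_, fun b hb => ?_⟩
    · refine Fin.addCases (fun i => ?_) (fun i => ?_) k
      · rw [Fin.append_left]
        exact (hc1 i).trans (Nat.lt_succ_self H)
      · rw [Fin.append_right]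
        exact Nat.lt_succ_self H
    · rw [Finset.card_filter, Fin.sum_univ_add]
      simp only [Fin.append_left, Fin.append_right]
      rw [← Finset.card_filter]
      rcases Nat.lt_succ_iff_lt_or_eq.1 hb with h1 | h1
      · rw [hc2 b h1, Finset.sum_eq_zero fun i _ => if_neg h1.ne', add_zero]
      · subst h1
        have h2 : Finset.univ.filter (fun k => c k = b) = ∅ := by
          rw [Finset.filter_eq_empty_iff]
          exact fun k _ => (hc1 k).ne
        rw [h2, Finset.card_empty, zero_add]
        simp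

private theorem fs_odd {g : ℕ → ℕ} {i : ℕ} (hi : Odd i) (b : ℕ) :
    foot (g i) (if Even i then g i else 0) b = g i - b := by
  rw [if_neg (Nat.not_even_iff_odd.2 hi)]
  unfold foot
  split_ifs <;> omega

private theorem fs_even {g : ℕ → ℕ} {i : ℕ} (hi : Even i) (b : ℕ) :
    foot (g i) (if Even i then g i else 0) b = if b ≤ g i then b else 0 := by
  rw [if_pos hi]
  unfold foot
  split_ifs <;> omega

private theorem fs_pair {g : ℕ → ℕ} (hg : Antitone g) (b n : ℕ) :
    ∑ i ∈ Finset.Ico 9 (9 + 2 * n), foot (g i) (if Even i then g i else 0) b ≤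
      ∑ i ∈ Finset.Ico 9 (9 + 2 * n), (if Odd i then g i else 0) := by
  induction n with
  | zero => simp
  | succ n ih =>
    have e : 9 + 2 * (n + 1) = 9 + 2 * n + 1 + 1 := by ring
    have ho : Odd (9 + 2 * n) := ⟨4 + n, by ring⟩
    have he : Even (9 + 2 * n + 1) := ⟨5 + n, by ring⟩
    have hle : g (9 + 2 * n + 1) ≤ g (9 + 2 * n) := hg (Nat.le_succ _)
    rw [e, Finset.sum_Ico_succ_top (by omega), Finset.sum_Ico_succ_top (by omega),
      Finset.sum_Ico_succ_top (by omega), Finset.sum_Ico_succ_top (by omega),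
      fs_odd ho, fs_even he, if_pos ho, if_neg (Nat.not_odd_iff_even.2 he)]
    split_ifs <;> omega

theorem pair_load {g : ℕ → ℕ} (hg : Antitone g) (h b : ℕ) :
    ∑ i ∈ Finset.Ico 9 h, foot (g i) (if Even i then g i else 0) b ≤
      ∑ i ∈ Finset.Ico 9 h, (if Odd i then g i else 0) := by
  rcases Nat.lt_or_ge h 9 with h9 | h9
  · rw [Finset.Ico_eq_empty_of_le h9.le, Finset.sum_empty, Finset.sum_empty]
  · rcases Nat.even_or_odd (h - 9) with he | ho
    · obtain ⟨n, hn⟩ := he
      have e : h = 9 + 2 * n := by omega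
      rw [e]
      exact fs_pair hg b n
    · obtain ⟨n, hn⟩ := ho
      have e : h = 9 + 2 * n + 1 := by omega
      have ho : Odd (9 + 2 * n) := ⟨4 + n, by ring⟩
      have hp := fs_pair hg b n
      rw [e, Finset.sum_Ico_succ_top (by omega), Finset.sum_Ico_succ_top (by omega), fs_odd ho,
        if_pos ho]
      omega

theorem pair_zero {g : ℕ → ℕ} (hg : Antitone g) (h : ℕ) {b : ℕ} (hb : g 9 < b) :
    ∑ i ∈ Finset.Ico 9 h, foot (g i) (if Even i then g i else 0) b = 0 := by
  refine Finset.sum_eq_zero fun i hi => ?_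
  have h1 := hg (Finset.mem_Ico.1 hi).1
  rcases Nat.even_or_odd i with he | ho
  · rw [fs_even he, if_neg (by omega)]
  · rw [fs_odd ho]
    omega

end Pool.Agent.Lib.MP_6b2d39_agRef
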