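import Pool.Agent.Lib.MP_6b2d39_agRef.ExactR
import Pool.Agent.Lib.MP_6b2d39_agNw.Zero

/-!
The reflection theorem: `3 e ≥ n₁ + … + n₉ + n₁₀ + n₁₂ + n₁₄ + …` for the multiplicities in decreasing order.

PROOF of `reduced_reflect`. If `n (σ 9) = 0` then at most nine multiplicities are positive: `nonspecial_nine`. Otherwise
`S = {σ i | i < 9}`, `i1 = σ 0`, `i2 = σ 1`, `Heavy e n S` (`deg`: `n (σ 9) ≥ 1` is one of the terms), `Heavy.exists_H`,
`B (σ i) = n (σ i)` for even `i`, `0` for odd `i` (`i ≥ 9`). With `g i = n (σ i)` for `i < h` and `0` for `i ≥ h` the load of the row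
`b` is the left side of `pair_load`; for `b ≤ n (σ 8)` it is at most `3 e - ∑_S n = rr b` (`rr_nine`; `3 b + (n₁ - b) ≤ n₁ + 2 n₉ < e`),
for `b > n (σ 8) ≥ g 9` it is `0` (`pair_zero`). `m i < H`: `3 b + (n₁ - b) ≤ n₁ + 2 n₉ ≤ e` for `b = n (σ i) ≤ n₉`. `exact_rows`.
-/

open Polynomial

set_option autoImplicit false

namespace Pool.Agent.Lib.MP_6b2d39_agRef

open Pool.Agent.Lib.MP_6b2d39_ag Pool.Agent.Lib.MP_6b2d39_agWin Pool.Agent.Lib.MP_6b2d39_agArr
  Pool.Agent.Lib.MP_6b2d39_agNw Pool.Agent.Lib.MP_6b2d39_agCr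

private theorem rf_tri {h e : ℕ} {n : Fin h → ℕ} (hred : Reduced e n) (i j l : Fin h)
    (hij : i ≠ j) (hil : i ≠ l) (hjl : j ≠ l) : n i + n j + n l ≤ e := by
  have h1 := hred ⟨![i, j, l], by
    intro a b hab
    fin_cases a <;> fin_cases b <;> simp_all [eq_comm]⟩
  rw [Fin.sum_univ_three] at h1
  exact h1

/-- sums over `Fin h` in the order `σ` -/
private theorem rf_sum {h : ℕ} (σ : Equiv.Perm (Fin h)) (G : ℕ → ℕ) :
    ∑ j : Fin h, G (σ.symm j) = ∑ i ∈ Finset.range h, G i := by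
  rw [Equiv.sum_comp σ.symm (fun i : Fin h => G i), Fin.sum_univ_eq_sum_range G h]

private theorem rf_split {h : ℕ} (h9 : 9 ≤ h) (G : ℕ → ℕ) :
    ∑ i ∈ Finset.range h, (if i < 9 then G i else 0) = ∑ i ∈ Finset.range 9, G i := by
  rw [← Finset.sum_range_add_sum_Ico _ h9]
  have h1 : ∑ i ∈ Finset.Ico 9 h, (if i < 9 then G i else 0) = 0 := by
    refine Finset.sum_eq_zero fun i hi => ?_
    rw [if_neg (by have := (Finset.mem_Ico.1 hi).1; omega)]
  rw [h1, add_zero]
  refine Finset.sum_congr rfl fun i hi => ?_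
  rw [if_pos (Finset.mem_range.1 hi)]

private theorem rf_split' {h : ℕ} (h9 : 9 ≤ h) (G : ℕ → ℕ) :
    ∑ i ∈ Finset.range h, (if ¬ i < 9 then G i else 0) = ∑ i ∈ Finset.Ico 9 h, G i := by
  rw [← Finset.sum_range_add_sum_Ico _ h9]
  have h1 : ∑ i ∈ Finset.range 9, (if ¬ i < 9 then G i else 0) = 0 := by
    refine Finset.sum_eq_zero fun i hi => ?_
    rw [if_neg (by have := Finset.mem_range.1 hi; omega)]
  rw [h1, zero_add]
  refine Finset.sum_congr rfl fun i hi => ?_
  rw [if_pos (by have := (Finset.mem_Ico.1 hi).1; omega)]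

theorem reduced_reflect {h : ℕ} {e : ℕ} {n : Fin h → ℕ} (hred : Reduced e n)
    (σ : Equiv.Perm (Fin h)) (hσ : Antitone fun i => n (σ i)) (i₁ i₉ : Fin h)
    (h1 : (i₁ : ℕ) = 0) (h9 : (i₉ : ℕ) = 8) (hne : n (σ i₁) + 2 * n (σ i₉) < e)
    (hs : ∑ i : Fin h, (if (i : ℕ) < 9 ∨ Odd (i : ℕ) then n (σ i) else 0) ≤ 3 * e) :
    General (fun P => (Module.finrank ℂ (curves e n P) : ℤ) = max (vd e n) 0) := by
  classical
  have hlt9 : 8 < h := by
    rw [← h9]
    exact i₉.2
  have hh : 3 ≤ h := by omega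
  obtain ⟨g, hg⟩ : ∃ g : ℕ → ℕ, g = fun i => if hi : i < h then n (σ ⟨i, hi⟩) else 0 := ⟨_, rfl⟩
  have hgσ : ∀ i : Fin h, g i = n (σ i) := by
    intro i
    rw [hg]
    simp only
    rw [dif_pos i.2]
  have hg0 : ∀ i, h ≤ i → g i = 0 := by
    intro i hi
    rw [hg]
    simp only
    rw [dif_neg (by omega)]
  have hga : Antitone g := by
    refine antitone_nat_of_succ_le fun i => ?_
    by_cases hi : i + 1 < h
    · have h2 := hgσ ⟨i, by omega⟩
      have h3 := hgσ ⟨i + 1, hi⟩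
      simp only at h2 h3
      rw [h2, h3]
      exact hσ (Fin.mk_le_mk.2 (Nat.le_succ i))
    · rw [hg0 (i + 1) (by omega)]
      exact Nat.zero_le _
  have hgs : ∀ j : Fin h, g (σ.symm j) = n j := by
    intro j
    rw [hgσ, Equiv.apply_symm_apply]
  have e0 : g 0 = n (σ i₁) := by rw [← hgσ, h1]
  have e8 : g 8 = n (σ i₉) := by rw [← hgσ, h9]
  obtain ⟨S, hS⟩ : ∃ S : Finset (Fin h), S = Finset.univ.filter (fun j => (σ.symm j : ℕ) < 9) :=
    ⟨_, rfl⟩
  have hmS : ∀ j, j ∈ S ↔ (σ.symm j : ℕ) < 9 := by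
    intro j
    rw [hS, Finset.mem_filter]
    exact ⟨fun h => h.2, fun h => ⟨Finset.mem_univ _, h⟩⟩
  have hcS : S.card = 9 := by
    rw [hS, Finset.card_filter, rf_sum σ (fun i => if i < 9 then 1 else 0),
      rf_split (by omega) (fun _ => 1)]
    rfl
  have hsumS : ∑ j ∈ S, n j = ∑ i ∈ Finset.range 9, g i := by
    rw [hS, Finset.sum_filter, ← rf_split (by omega : 9 ≤ h) g,
      ← rf_sum σ (fun i => if i < 9 then g i else 0)]
    refine Finset.sum_congr rfl fun j _ => ?_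
    rw [hgs]
  have hs' : ∑ i ∈ Finset.range 9, g i + ∑ i ∈ Finset.Ico 9 h, (if Odd i then g i else 0) ≤
      3 * e := by
    refine le_trans (le_of_eq ?_) hs
    have h2 : ∑ i : Fin h, (if (i : ℕ) < 9 ∨ Odd (i : ℕ) then n (σ i) else 0) =
        ∑ i ∈ Finset.range h, (if i < 9 ∨ Odd i then g i else 0) := by
      rw [← Fin.sum_univ_eq_sum_range (fun i => if i < 9 ∨ Odd i then g i else 0) h]
      refine Finset.sum_congr rfl fun i _ => ?_
      rw [hgσ]
    have ha : ∑ i ∈ Finset.range 9, (if i < 9 ∨ Odd i then g i else 0) =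
        ∑ i ∈ Finset.range 9, g i := by
      refine Finset.sum_congr rfl fun i hi => ?_
      rw [if_pos (Or.inl (Finset.mem_range.1 hi))]
    have hb : ∑ i ∈ Finset.Ico 9 h, (if i < 9 ∨ Odd i then g i else 0) =
        ∑ i ∈ Finset.Ico 9 h, (if Odd i then g i else 0) := by
      refine Finset.sum_congr rfl fun i hi => ?_
      have h3 := (Finset.mem_Ico.1 hi).1
      by_cases ho : Odd i
      · rw [if_pos ho, if_pos (Or.inr ho)]
      · rw [if_neg ho, if_neg (by
          rintro (h4 | h4)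
          · omega
          · exact ho h4)]
    rw [h2, ← Finset.sum_range_add_sum_Ico _ (by omega : 9 ≤ h), ha, hb]
  rcases Nat.eq_zero_or_pos (g 9) with hz | hz
  · refine nonspecial_nine hh hred ?_
    rw [← hcS]
    refine Finset.card_le_card fun j hj => ?_
    have h2 := (Finset.mem_filter.1 hj).2
    rw [hmS]
    by_contra hcon
    have h3 := hga (by omega : 9 ≤ (σ.symm j : ℕ))
    rw [hgs, hz] at h3
    omega
  have h9h : 9 < h := by
    by_contra hcon
    rw [hg0 9 (by omega)] at hz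
    exact lt_irrefl 0 hz
  have hdeg : ∑ j ∈ S, n j + 1 ≤ 3 * e := by
    rw [hsumS]
    have h2 : (if Odd 9 then g 9 else 0) ≤ ∑ i ∈ Finset.Ico 9 h, (if Odd i then g i else 0) :=
      Finset.single_le_sum (f := fun i => if Odd i then g i else 0) (fun i _ => Nat.zero_le _)
        (Finset.mem_Ico.2 ⟨le_rfl, h9h⟩)
    rw [if_pos ⟨4, rfl⟩] at h2
    omega
  obtain ⟨j1, hj1⟩ : ∃ j1 : Fin h, j1 = σ ⟨0, by omega⟩ := ⟨_, rfl⟩
  obtain ⟨j2, hj2⟩ : ∃ j2 : Fin h, j2 = σ ⟨1, by omega⟩ := ⟨_, rfl⟩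
  have hs1 : (σ.symm j1 : ℕ) = 0 := by rw [hj1, Equiv.symm_apply_apply]
  have hs2 : (σ.symm j2 : ℕ) = 1 := by rw [hj2, Equiv.symm_apply_apply]
  have hn1 : n j1 = g 0 := by rw [← hgs, hs1]
  have hn2 : n j2 = g 1 := by rw [← hgs, hs2]
  have hH : Heavy e S n j1 j2 := by
    refine ⟨?_, ?_, ?_, ?_, ?_, ?_, ?_, ?_, hdeg⟩
    · rw [hmS, hs1]
      omega
    · rw [hmS, hs2]
      omega
    · intro hcon
      rw [hcon, hs2] at hs1
      omega
    · rw [hn1, hn2]
      exact hga (by omega)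
    · intro i _ hi
      rw [hn2, ← hgs]
      refine hga ?_
      by_contra hcon
      apply hi
      have h3 : (σ.symm i : ℕ) = (σ.symm j1 : ℕ) := by omega
      exact σ.symm.injective (Fin.ext h3)
    · exact fun i _ j _ l _ => rf_tri hred i j l
    · omega
    · omega
  obtain ⟨H, hHH⟩ := hH.exists_H
  have h89 : g 9 ≤ g 8 := hga (by omega)
  have h08 : g 8 ≤ g 0 := hga (by omega)
  refine exact_rows hH hHH (fun j => if Even (σ.symm j : ℕ) then n j else 0) ?_ ?_ ?_
  · intro i _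
    split_ifs
    · exact le_rfl
    · exact Nat.zero_le _
  · intro i hi
    rw [hmS] at hi
    rw [hHH, hn1]
    have h3 := hga (by omega : 9 ≤ (σ.symm i : ℕ))
    rw [hgs] at h3
    omega
  · intro b hb
    have hload : ∑ i ∈ Finset.univ.filter (fun i => i ∉ S),
        foot (n i) (if Even (σ.symm i : ℕ) then n i else 0) b =
        ∑ i ∈ Finset.Ico 9 h, foot (g i) (if Even i then g i else 0) b := by
      rw [Finset.sum_filter, ← rf_split' (by omega : 9 ≤ h)
        (fun i => foot (g i) (if Even i then g i else 0) b),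
        ← rf_sum σ (fun i => if ¬ i < 9 then foot (g i) (if Even i then g i else 0) b else 0)]
      refine Finset.sum_congr rfl fun j _ => ?_
      by_cases hj : j ∈ S
      · rw [if_neg (not_not.2 hj), if_neg (not_not.2 ((hmS j).1 hj))]
      · rw [if_pos hj, if_pos (fun h => hj ((hmS j).2 h)), hgs]
    rw [hload]
    rcases Nat.lt_or_ge (g 8) b with hb8 | hb8
    · rw [pair_zero hga h (by omega : g 9 < b)]
      exact Nat.zero_le _
    · have h3 := rr_nine hH hcS (b := b) (fun i hi => by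
        rw [hmS] at hi
        rw [← hgs]
        exact hb8.trans (hga (by omega))) (by
          rw [hn1]
          omega)
      have h4 := pair_load hga h b
      rw [hsumS] at h3
      omega

end Pool.Agent.Lib.MP_6b2d39_agRef
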